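import Mathlib

/-! Counting lemmas for record gaps near multiples. -/

set_option autoImplicit false

namespace Pool.Agent.H749R6.RM

open Finset

theorem card_lower (X B : ℕ) (hB : 0 < B) (Q : ℕ → Prop) [DecidablePred Q]
    (h : ∀ z : ℕ, ∃ n, z < n ∧ n < z + B ∧ Q n) : X / B ≤ ((Ioc X (2 * X)).filter Q).card := by
  choose f hf1 hf2 hf3 using h
  rw [← Finset.card_range (X / B)]
  refine Finset.card_le_card_of_injOn (fun i => f (X + i * B)) ?_ ?_
  · intro i hi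
    rw [Finset.mem_coe, Finset.mem_range] at hi
    rw [Finset.mem_coe, Finset.mem_filter, Finset.mem_Ioc]
    have h1 := hf1 (X + i * B)
    have h2 := hf2 (X + i * B)
    have h3 : (i + 1) * B ≤ X := (Nat.mul_le_mul_right B hi).trans (Nat.div_mul_le_self X B)
    have h4 : (i + 1) * B = i * B + B := by ring
    refine ⟨⟨?_, ?_⟩, hf3 _⟩
    · change X < f (X + i * B)
      omega
    · change f (X + i * B) ≤ 2 * X
      omega
  · intro i _ j _ hij
    simp only at hij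
    by_contra hne
    rcases Nat.lt_or_gt_of_ne hne with hlt | hlt
    · have h1 := hf2 (X + i * B)
      have h2 := hf1 (X + j * B)
      have h3 : (i + 1) * B ≤ j * B := Nat.mul_le_mul_right B hlt
      have h4 : (i + 1) * B = i * B + B := by ring
      omega
    · have h1 := hf2 (X + j * B)
      have h2 := hf1 (X + i * B)
      have h3 : (j + 1) * B ≤ i * B := Nat.mul_le_mul_right B hlt
      have h4 : (j + 1) * B = j * B + B := by ring
      omega

/-- from pairs to multipliers -/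
theorem pairs_le (P : Finset ℕ) (X J K : ℕ) (x h D : ℝ) (hx : 0 < x) (hh1 : h ≤ 1)
    (hJh : (J : ℝ) * h ≤ 1) (hD : 2 * (X : ℝ) + 1 ≤ D * x)
    (hP : ∀ n ∈ P, n ≤ 2 * X ∧ ∀ j : ℕ, 1 ≤ j → j ≤ J → ∀ p : ℕ, p.Prime →
      ((K : ℤ) + 1) < |(j : ℤ) * n - p|) :
    {q : ℕ × ℕ | q.2 ∈ P ∧ (q.1 : ℝ) * x - h < q.2 ∧ (q.2 : ℝ) < q.1 * x}.ncard ≤
      {k : ℕ | (k : ℝ) ≤ D ∧ ∀ j : ℕ, 1 ≤ j → j ≤ J → ∀ p : ℕ, p.Prime →
        (K : ℝ) < |(j : ℝ) * k * x - p|}.ncard := by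
  have hfin : {k : ℕ | (k : ℝ) ≤ D ∧ ∀ j : ℕ, 1 ≤ j → j ≤ J → ∀ p : ℕ, p.Prime →
        (K : ℝ) < |(j : ℝ) * k * x - p|}.Finite := by
    refine (Set.finite_Iic ⌊D⌋₊).subset fun k hk => ?_
    exact Nat.le_floor hk.1
  refine Set.ncard_le_ncard_of_injOn (fun q => q.1) ?_ ?_ hfin
  · rintro ⟨k, n⟩ ⟨hn, h1, h2⟩
    simp only at hn h1 h2
    obtain ⟨hn2, hn3⟩ := hP n hn
    have hn2' : (n : ℝ) ≤ 2 * X := by exact_mod_cast hn2
    refine ⟨?_, fun j hj1 hj2 p hp => ?_⟩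
    · have h3 : (k : ℝ) * x ≤ D * x := by linarith
      exact le_of_mul_le_mul_right h3 hx
    · have h3 := hn3 j hj1 hj2 p hp
      have h4 : ((K : ℝ) + 2) ≤ |(j : ℝ) * n - p| := by
        have : ((K : ℤ) + 2) ≤ |(j : ℤ) * n - p| := by omega
        have h5 : (((K : ℤ) + 2 : ℤ) : ℝ) ≤ ((|(j : ℤ) * n - p| : ℤ) : ℝ) := by exact_mod_cast this
        push_cast at h5
        exact h5
      have hj0 : (0 : ℝ) < j := by exact_mod_cast hj1
      have hjJ : (j : ℝ) ≤ J := by exact_mod_cast hj2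
      have h5 : |(j : ℝ) * k * x - (j : ℝ) * n| ≤ 1 := by
        have : (j : ℝ) * k * x - (j : ℝ) * n = j * (k * x - n) := by ring
        rw [this, abs_mul, abs_of_pos hj0, abs_of_pos (by linarith)]
        calc (j : ℝ) * (k * x - n) ≤ J * h := by
              apply mul_le_mul hjJ (by linarith) (by linarith) (by positivity)
          _ ≤ 1 := hJh
      have h6 : |(j : ℝ) * n - p| ≤ |(j : ℝ) * k * x - p| + |(j : ℝ) * k * x - (j : ℝ) * n| := by
        have : (j : ℝ) * n - p = ((j : ℝ) * k * x - p) - ((j : ℝ) * k * x - (j : ℝ) * n) := by ring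
        rw [this]
        exact abs_sub _ _
      linarith
  · rintro ⟨k, n⟩ ⟨hn, h1, h2⟩ ⟨k', n'⟩ ⟨hn', h1', h2'⟩ hk
    simp only at hn h1 h2 hn' h1' h2' hk
    subst hk
    have h3 : (n : ℝ) < n' + 1 := by linarith
    have h4 : (n' : ℝ) < n + 1 := by linarith
    have h5 : n < n' + 1 := by exact_mod_cast h3
    have h6 : n' < n + 1 := by exact_mod_cast h4
    have : n = n' := by omega
    rw [this]

end Pool.Agent.H749R6.RM
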