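import Mathlib
import Pool.Agent.H749R6.RM.Cnt

/-! Record gaps near multiples of almost every real number: assembly. -/

set_option autoImplicit false

namespace Pool.Agent.H749R6.RM

open Finset MeasureTheory Filter Topology

lemma ev_pow (s : ℝ) (hs : 0 < s) (C : ℝ) : ∀ᶠ Y : ℝ in atTop, C ≤ Y ^ s :=
  (tendsto_rpow_atTop hs).eventually_ge_atTop C

/-- the numerical facts -/
theorem facts (F : ℝ → ℝ) (hF0 : ∀ᶠ Y in atTop, 0 < F Y)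
    (hFs : ∀ s : ℝ, 0 < s → ∀ᶠ Y : ℝ in atTop, F Y ≤ Y ^ s)
    (hsc : ∀ a : ℝ, 0 < a → a ≤ 1 / 4 → ∀ᶠ Y : ℝ in atTop, a / 16 * F Y ≤ F (Y ^ a))
    (δ ε κ₁ κ₂ : ℝ) (hδ1 : δ < 1) (hε : 0 < ε) (hεδ : ε < δ)
    (hκ₂ : 0 < κ₂) (h21 : κ₂ ≤ κ₁) (h2ε : κ₂ ≤ ε / 8) (h2q : κ₂ ≤ 1 / 4) (X₀ : ℕ) (Z₀ : ℝ) :
    ∀ᶠ Y : ℝ in atTop, ∀ X : ℕ, X = ⌊Y ^ (1 + δ) / 4⌋₊ → ∀ B : ℕ, B = ⌈Y ^ (κ₂ / 2)⌉₊ + 1 →
      1 ≤ Y ∧ X₀ ≤ X ∧ (1 : ℝ) ≤ X ∧ Y ≤ (X : ℝ) ^ (1 - δ / 4) ∧ (X : ℝ) ^ (-κ₁) ≤ (X : ℝ) ^ (-κ₂) ∧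
      2 * (X : ℝ) + 1 ≤ Y ^ δ * Y ∧ Z₀ ≤ Y ^ (κ₂ / 2) ∧ 1 ≤ Y ^ (κ₂ / 2) ∧
      κ₂ / 2 / 16 * F Y ≤ F (Y ^ (κ₂ / 2)) ∧ 0 < F Y ∧ F Y * (X : ℝ) ^ (-κ₂) ≤ 1 ∧
      (F Y + 1) ^ 2 * (Y * (X : ℝ) ^ (-κ₁)) ≤ Y ^ (1 - κ₁ / 2) ∧
      Y ^ (δ - ε) ≤ (X : ℝ) ^ (-κ₂) / (2 * Y) * (((X / B : ℕ) : ℝ) - (X : ℝ) ^ (1 - κ₁)) ∧
      (X : ℝ) ^ (1 - κ₁) ≤ ((X / B : ℕ) : ℝ) := by
  have hδ0 : 0 < δ := hε.trans hεδ
  have hκ₁ : 0 < κ₁ := hκ₂.trans_le h21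
  filter_upwards [hF0, hFs (κ₂ / 8) (by positivity), hsc (κ₂ / 2) (by positivity) (by linarith),
    eventually_ge_atTop (16 : ℝ), eventually_ge_atTop ((X₀ : ℝ) + 1), ev_pow (δ / 2) (by positivity) 8,
    ev_pow (κ₂ / 2) (by positivity) Z₀, ev_pow (κ₂ / 2) (by positivity) 8,
    ev_pow (κ₁ / 4) (by positivity) 4, ev_pow (1 / 2) (by norm_num) 4,
    ev_pow (ε / 2) (by positivity) 512] with Y f1 f2 f3 f4 f5 f6 f7 f8 f9 f10 f11
  intro X hX B hB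
  have hY0 : 0 < Y := by linarith
  have hY1 : 1 ≤ Y := by linarith
  have hA : Y ^ (1 + δ) = Y * Y ^ δ := by rw [Real.rpow_add hY0, Real.rpow_one]
  have hδY : 8 ≤ Y ^ δ := f6.trans (Real.rpow_le_rpow_of_exponent_le hY1 (by linarith))
  have hA8 : 8 * Y ≤ Y ^ (1 + δ) := by
    rw [hA]
    nlinarith
  have hXle : (X : ℝ) ≤ Y ^ (1 + δ) / 4 := by
    rw [hX]
    exact Nat.floor_le (by positivity)
  have hXge : Y ^ (1 + δ) / 8 ≤ X := by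
    have : Y ^ (1 + δ) / 4 < (X : ℝ) + 1 := by
      rw [hX]
      exact Nat.lt_floor_add_one _
    linarith
  have hXY : Y ≤ X := by linarith
  have hX1 : (1 : ℝ) ≤ X := by linarith
  have hX0 : (0 : ℝ) < X := by linarith
  have hXY2 : (X : ℝ) ≤ Y ^ (2 : ℝ) := by
    refine hXle.trans ?_
    have : Y ^ (1 + δ) ≤ Y ^ (2 : ℝ) := Real.rpow_le_rpow_of_exponent_le hY1 (by linarith)
    have : 0 < Y ^ (1 + δ) := by positivity
    linarith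
  have hXκ : ∀ κ : ℝ, 0 < κ → (X : ℝ) ^ (-κ) ≤ Y ^ (-κ) := fun κ hκ =>
    Real.rpow_le_rpow_of_nonpos hY0 hXY (by linarith)
  have hB2 : (B : ℝ) ≤ 2 * Y ^ (κ₂ / 2) := by
    rw [hB]
    push_cast
    have := (Nat.ceil_lt_add_one (by positivity : 0 ≤ Y ^ (κ₂ / 2))).le
    linarith
  have hB0 : (0 : ℝ) < B := by
    rw [hB]
    push_cast
    positivity
  set W := Y ^ (κ₂ / 2) with hW
  have hW0 : 0 < W := by positivity
  -- the number of blocks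
  have hblocks : (X : ℝ) / (4 * W) ≤ ((X / B : ℕ) : ℝ) := by
    have h1 : (X : ℝ) / B - 1 ≤ ((X / B : ℕ) : ℝ) := by
      have h2 : (X : ℝ) / B < ((X / B : ℕ) : ℝ) + 1 := by
        rw [div_lt_iff₀ hB0]
        have h3 : X < (X / B + 1) * B := by
          have : 0 < B := by exact_mod_cast hB0
          rw [add_mul, one_mul]
          exact Nat.lt_div_mul_add this
        exact_mod_cast h3
      linarith
    have h2 : (X : ℝ) / (2 * W) ≤ X / B := by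
      apply div_le_div_of_nonneg_left hX0.le hB0 hB2
    have h3 : 1 ≤ (X : ℝ) / (4 * W) := by
      rw [le_div_iff₀ (by positivity), one_mul]
      have h4 : W ≤ Y ^ (1 / 2 : ℝ) := Real.rpow_le_rpow_of_exponent_le hY1 (by linarith)
      have h5 : Y ^ (1 / 2 : ℝ) * Y ^ (1 / 2 : ℝ) = Y := by
        rw [← Real.rpow_add hY0]
        norm_num
      nlinarith
    have h4 : (X : ℝ) / (2 * W) = X / (4 * W) + X / (4 * W) := by
      field_simp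
      ring
    linarith
  -- the error term
  have herr : (X : ℝ) ^ (1 - κ₁) ≤ X / (8 * W) := by
    have h1 : (X : ℝ) ^ (1 - κ₁) = X * (X : ℝ) ^ (-κ₁) := by
      rw [sub_eq_add_neg, Real.rpow_add hX0, Real.rpow_one]
    rw [h1, div_eq_mul_inv]
    apply mul_le_mul_of_nonneg_left _ hX0.le
    refine (hXκ κ₁ hκ₁).trans ?_
    have h2 : Y ^ (-κ₁) ≤ Y ^ (-κ₂) := Real.rpow_le_rpow_of_exponent_le hY1 (by linarith)
    refine h2.trans ?_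
    rw [le_inv_comm₀ (by positivity) (by positivity), ← Real.rpow_neg hY0.le, neg_neg]
    have h3 : Y ^ κ₂ = W * W := by
      rw [hW, ← Real.rpow_add hY0]
      congr 1
      ring
    rw [h3]
    exact mul_le_mul_of_nonneg_right f8 hW0.le
  have h84 : (X : ℝ) / (4 * W) = X / (8 * W) + X / (8 * W) := by
    field_simp
    ring
  have hpos8 : 0 < (X : ℝ) / (8 * W) := by positivity
  refine ⟨hY1, ?_, hX1, ?_, ?_, ?_, f7, by linarith, f3, f1, ?_, ?_, ?_, by linarith⟩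
  · have : (X₀ : ℝ) ≤ X := by linarith
    exact_mod_cast this
  · -- Y ≤ X ^ (1 - δ/4)
    have h1 : (Y ^ (1 + δ) / 8) ^ (1 - δ / 4) ≤ (X : ℝ) ^ (1 - δ / 4) :=
      Real.rpow_le_rpow (by positivity) hXge (by linarith)
    refine le_trans ?_ h1
    rw [Real.div_rpow (by positivity) (by norm_num), ← Real.rpow_mul hY0.le,
      le_div_iff₀ (by positivity)]
    have h2 : (8 : ℝ) ^ (1 - δ / 4) ≤ 8 := by
      calc (8 : ℝ) ^ (1 - δ / 4) ≤ 8 ^ (1 : ℝ) :=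
            Real.rpow_le_rpow_of_exponent_le (by norm_num) (by linarith)
        _ = 8 := Real.rpow_one 8
    have h3 : Y ^ (1 + δ / 2) ≤ Y ^ ((1 + δ) * (1 - δ / 4)) := by
      apply Real.rpow_le_rpow_of_exponent_le hY1
      nlinarith
    have h4 : Y ^ (1 + δ / 2) = Y * Y ^ (δ / 2) := by rw [Real.rpow_add hY0, Real.rpow_one]
    calc Y * (8 : ℝ) ^ (1 - δ / 4) ≤ Y * 8 := by gcongr
      _ ≤ Y * Y ^ (δ / 2) := by gcongr
      _ ≤ _ := by rw [← h4]; exact h3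
  · exact Real.rpow_le_rpow_of_exponent_le hX1 (by linarith)
  · rw [mul_comm (Y ^ δ) Y, ← hA]
    linarith
  · -- J h ≤ 1
    have h1 : F Y * (X : ℝ) ^ (-κ₂) ≤ Y ^ (κ₂ / 8) * Y ^ (-κ₂) :=
      mul_le_mul f2 (hXκ κ₂ hκ₂) (by positivity) (by positivity)
    refine h1.trans ?_
    rw [← Real.rpow_add hY0]
    exact Real.rpow_le_one_of_one_le_of_nonpos hY1 (by linarith)
  · have h1 : (F Y + 1) ^ 2 ≤ (2 * Y ^ (κ₁ / 8)) ^ 2 := by
      have h2 : Y ^ (κ₂ / 8) ≤ Y ^ (κ₁ / 8) :=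
        Real.rpow_le_rpow_of_exponent_le hY1 (by linarith)
      have h3 : 1 ≤ Y ^ (κ₁ / 8) := Real.one_le_rpow hY1 (by positivity)
      apply pow_le_pow_left₀ (by linarith)
      linarith
    have h2 : (2 * Y ^ (κ₁ / 8)) ^ 2 = 4 * Y ^ (κ₁ / 4) := by
      have h3 : Y ^ (κ₁ / 8) * Y ^ (κ₁ / 8) = Y ^ (κ₁ / 4) := by
        rw [← Real.rpow_add hY0]
        congr 1
        ring
      rw [← h3]
      ring
    calc (F Y + 1) ^ 2 * (Y * (X : ℝ) ^ (-κ₁)) ≤ (Y ^ (κ₁ / 4) * Y ^ (κ₁ / 4)) * (Y * Y ^ (-κ₁)) := by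
          apply mul_le_mul _ _ (by positivity) (by positivity)
          · rw [h2] at h1
            refine h1.trans ?_
            gcongr
          · apply mul_le_mul_of_nonneg_left (hXκ κ₁ hκ₁) hY0.le
      _ = Y ^ (1 - κ₁ / 2) := by
          rw [← Real.rpow_add hY0]
          nth_rw 2 [← Real.rpow_one Y]
          rw [← Real.rpow_add hY0, ← Real.rpow_add hY0]
          congr 1
          ring
  · -- the final count
    have h1 : (X : ℝ) / (8 * W) ≤ ((X / B : ℕ) : ℝ) - (X : ℝ) ^ (1 - κ₁) := by linarith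
    have h2 : Y ^ (-(2 * κ₂)) ≤ (X : ℝ) ^ (-κ₂) := by
      have h3 : (Y ^ (2 : ℝ)) ^ (-κ₂) ≤ (X : ℝ) ^ (-κ₂) :=
        Real.rpow_le_rpow_of_nonpos hX0 hXY2 (by linarith)
      rw [← Real.rpow_mul hY0.le] at h3
      have : (2 : ℝ) * -κ₂ = -(2 * κ₂) := by ring
      rwa [this] at h3
    calc Y ^ (δ - ε) ≤ Y ^ (-(2 * κ₂)) / (2 * Y) * (Y ^ (1 + δ) / 8 / (8 * W)) := by
          have e1 : Y ^ (-(2 * κ₂)) / (2 * Y) * (Y ^ (1 + δ) / 8 / (8 * W)) =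
              (Y ^ (-(2 * κ₂)) * Y ^ (-1 : ℝ) * Y ^ (1 + δ) * Y ^ (-(κ₂ / 2))) / 128 := by
            rw [hW, Real.rpow_neg hY0.le (κ₂ / 2), Real.rpow_neg_one]
            field_simp
            ring
          rw [e1, ← Real.rpow_add hY0, ← Real.rpow_add hY0, ← Real.rpow_add hY0,
            le_div_iff₀ (by norm_num)]
          have e2 : -(2 * κ₂) + -1 + (1 + δ) + -(κ₂ / 2) = (δ - ε) + (ε - 5 / 2 * κ₂) := by ring
          rw [e2, Real.rpow_add hY0]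
          apply mul_le_mul_of_nonneg_left _ (by positivity)
          have e3 : Y ^ (ε / 2) ≤ Y ^ (ε - 5 / 2 * κ₂) :=
            Real.rpow_le_rpow_of_exponent_le hY1 (by linarith)
          linarith
      _ ≤ (X : ℝ) ^ (-κ₂) / (2 * Y) * (((X / B : ℕ) : ℝ) - (X : ℝ) ^ (1 - κ₁)) := by
          have h5 : Y ^ (1 + δ) / 8 / (8 * W) ≤ X / (8 * W) := by gcongr
          apply mul_le_mul _ (h5.trans h1) (by positivity) (by positivity)
          gcongr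

end Pool.Agent.H749R6.RM
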