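import Mathlib

/-! The scale function. -/

set_option autoImplicit false

namespace Pool.Agent.H749R6.RM

open Finset Filter Topology

/-- the scale -/
noncomputable def ff (X : ℝ) : ℝ :=
  Real.log X * (Real.log (Real.log X)) ^ 2 * Real.log (Real.log (Real.log (Real.log X))) /
    (Real.log (Real.log (Real.log X))) ^ 2

theorem t1 : Tendsto (fun X : ℝ => Real.log X) atTop atTop := Real.tendsto_log_atTop
theorem t2 : Tendsto (fun X : ℝ => Real.log (Real.log X)) atTop atTop :=
  Real.tendsto_log_atTop.comp t1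
theorem t3 : Tendsto (fun X : ℝ => Real.log (Real.log (Real.log X))) atTop atTop :=
  Real.tendsto_log_atTop.comp t2
theorem t4 : Tendsto (fun X : ℝ => Real.log (Real.log (Real.log (Real.log X)))) atTop atTop :=
  Real.tendsto_log_atTop.comp t3

theorem ff_pos : ∀ᶠ Y : ℝ in atTop, 0 < ff Y := by
  filter_upwards [t1.eventually_ge_atTop 1, t2.eventually_ge_atTop 1, t3.eventually_ge_atTop 1,
    t4.eventually_ge_atTop 1] with Y h1 h2 h3 h4
  unfold ff
  positivity

theorem ff_le (s : ℝ) (hs : 0 < s) : ∀ᶠ Y : ℝ in atTop, ff Y ≤ Y ^ s := by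
  have e0 := (isLittleO_log_rpow_atTop (show 0 < s / 4 by positivity)).bound
    (by norm_num : (0 : ℝ) < 1)
  filter_upwards [t1.eventually_ge_atTop 1, t2.eventually_ge_atTop 1, t3.eventually_ge_atTop 1,
    t4.eventually_ge_atTop 1, e0, eventually_gt_atTop 1] with Y h1 h2 h3 h4 h5 h6
  have hY0 : 0 < Y := by linarith
  rw [Real.norm_eq_abs, Real.norm_eq_abs, abs_of_pos (by linarith), abs_of_pos (by positivity),
    one_mul] at h5
  have l2 : Real.log (Real.log Y) ≤ Real.log Y := by
    have := Real.log_le_sub_one_of_pos (show 0 < Real.log Y by linarith)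
    linarith
  have l3 : Real.log (Real.log (Real.log Y)) ≤ Real.log Y := by
    have := Real.log_le_sub_one_of_pos (show 0 < Real.log (Real.log Y) by linarith)
    linarith
  have l4 : Real.log (Real.log (Real.log (Real.log Y))) ≤ Real.log Y := by
    have := Real.log_le_sub_one_of_pos (show 0 < Real.log (Real.log (Real.log Y)) by linarith)
    linarith
  unfold ff
  set L := Real.log Y
  calc L * (Real.log L) ^ 2 * Real.log (Real.log (Real.log L)) / (Real.log (Real.log L)) ^ 2
      ≤ L * (Real.log L) ^ 2 * Real.log (Real.log (Real.log L)) := by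
        apply div_le_self (by positivity)
        nlinarith
    _ ≤ L * L ^ 2 * L := by
        have : (Real.log L) ^ 2 ≤ L ^ 2 := by
          apply pow_le_pow_left₀ (by linarith) l2
        gcongr
    _ = L ^ 4 := by ring
    _ ≤ (Y ^ (s / 4)) ^ 4 := by
        apply pow_le_pow_left₀ (by linarith) h5
    _ = Y ^ s := by
        rw [← Real.rpow_natCast, ← Real.rpow_mul hY0.le]
        congr 1
        push_cast
        ring

theorem ff_sc (a : ℝ) (ha : 0 < a) (ha4 : a ≤ 1 / 4) :
    ∀ᶠ Y : ℝ in atTop, a / 16 * ff Y ≤ ff (Y ^ a) := by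
  filter_upwards [t1.eventually_ge_atTop 1, t2.eventually_ge_atTop (2 * |Real.log a| + 4),
    t3.eventually_ge_atTop 4, t4.eventually_ge_atTop 2, eventually_gt_atTop 1] with Y h1 h2 h3 h4 h6
  have hY0 : 0 < Y := by linarith
  have hlog2 : Real.log 2 < 1 := by
    have := Real.log_two_lt_d9
    linarith
  have hlog2' : 0 < Real.log 2 := Real.log_pos (by norm_num)
  unfold ff
  rw [Real.log_rpow hY0]
  set L := Real.log Y with hL
  have hL0 : 0 < L := by linarith
  rw [Real.log_mul ha.ne' hL0.ne']
  set L2 := Real.log L with hL2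
  have hlog : -|Real.log a| ≤ Real.log a := neg_abs_le _
  have hloga : Real.log a ≤ 0 := Real.log_nonpos ha.le (by linarith)
  have habs := abs_nonneg (Real.log a)
  have k2 : L2 / 2 ≤ Real.log a + L2 := by linarith
  have k2' : Real.log a + L2 ≤ L2 := by linarith
  have hL20 : 0 < L2 := by linarith
  set M2 := Real.log a + L2 with hM2
  have hM20 : 0 < M2 := by linarith
  set L3 := Real.log L2 with hL3
  have k3 : L3 / 2 ≤ Real.log M2 := by
    have : Real.log (L2 / 2) ≤ Real.log M2 := Real.log_le_log (by positivity) k2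
    rw [Real.log_div hL20.ne' (by norm_num)] at this
    linarith
  have k3' : Real.log M2 ≤ L3 := Real.log_le_log hM20 k2'
  set M3 := Real.log M2 with hM3
  have hL30 : 0 < L3 := by linarith
  have hM30 : 0 < M3 := by linarith
  set L4 := Real.log L3 with hL4
  have k4 : L4 / 2 ≤ Real.log M3 := by
    have : Real.log (L3 / 2) ≤ Real.log M3 := Real.log_le_log (by positivity) k3
    rw [Real.log_div hL30.ne' (by norm_num)] at this
    linarith
  have hL40 : 0 < L4 := by linarith
  calc a / 16 * (L * L2 ^ 2 * L4 / L3 ^ 2) ≤ a * L * (L2 / 2) ^ 2 * (L4 / 2) / L3 ^ 2 := by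
        have e1 : a * L * (L2 / 2) ^ 2 * (L4 / 2) / L3 ^ 2 = a / 8 * (L * L2 ^ 2 * L4 / L3 ^ 2) := by
          field_simp
          ring
        rw [e1]
        apply mul_le_mul_of_nonneg_right _ (by positivity)
        linarith
    _ ≤ a * L * M2 ^ 2 * Real.log M3 / M3 ^ 2 := by
        have hM40 : 0 < Real.log M3 := by linarith
        have hnum : 0 ≤ a * L * M2 ^ 2 * Real.log M3 := by positivity
        gcongr

end Pool.Agent.H749R6.RM
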