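import Pool.Agent.H749R6.RM.Main
import Pool.Agent.H749R6.RM.Scale
import Pool.Agent.H341R2.DG5
import Pool.Agent.H438R2.DL.App2

/-! Simultaneous record gaps behind the multiples of almost every real number. -/

set_option autoImplicit false

namespace Pool.Agent.H749R6.RM

open MeasureTheory

theorem multiples : ∀ δ ε : ℝ, 0 < ε → ε < δ → δ < 1 → ∃ c κ : ℝ, 0 < c ∧ 0 < κ ∧
    ∃ Y₀ : ℝ, ∀ Y : ℝ, Y₀ ≤ Y →
      ∃ E : Set ℝ, MeasurableSet E ∧ volume E ≤ ENNReal.ofReal (Y ^ (1 - κ)) ∧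
      ∀ x : ℝ, Y ≤ x → x ≤ 2 * Y → x ∉ E → ∀ J K : ℕ, 1 ≤ J → 1 ≤ K →
        (J : ℝ) * K ≤ c * (Real.log Y * (Real.log (Real.log Y)) ^ 2 *
          Real.log (Real.log (Real.log (Real.log Y))) / (Real.log (Real.log (Real.log Y))) ^ 2) →
        Y ^ (δ - ε) ≤ ({k : ℕ | (k : ℝ) ≤ Y ^ δ ∧ ∀ j : ℕ, 1 ≤ j → j ≤ J → ∀ p : ℕ, p.Prime →
          (K : ℝ) < |(j : ℝ) * k * x - p|}.ncard : ℝ) :=
  main_abs ff ff_pos ff_le ff_sc Pool.Agent.H341R2.DG.simultaneous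
    Pool.Agent.H438R2.DL.pairs_asymp

end Pool.Agent.H749R6.RM
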