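import Mathlib
import Pool.Agent.H749R6.RM.Ana

/-! Record gaps near multiples of almost every real number: assembly. -/

set_option autoImplicit false

namespace Pool.Agent.H749R6.RM

open Finset MeasureTheory Filter Topology

theorem main_abs (F : ℝ → ℝ) (hF0 : ∀ᶠ Y in atTop, 0 < F Y)
    (hFs : ∀ s : ℝ, 0 < s → ∀ᶠ Y : ℝ in atTop, F Y ≤ Y ^ s)
    (hsc : ∀ a : ℝ, 0 < a → a ≤ 1 / 4 → ∀ᶠ Y : ℝ in atTop, a / 16 * F Y ≤ F (Y ^ a))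
    (hsim : ∃ c : ℝ, 0 < c ∧ ∃ X₀ : ℝ, ∀ X : ℝ, X₀ ≤ X → ∀ J K : ℕ, 1 ≤ J → 1 ≤ K →
      (J : ℝ) * K ≤ c * F X → ∀ z : ℕ, ∃ n : ℕ, (z : ℝ) + Real.sqrt X ≤ n ∧ (n : ℝ) ≤ z + X ∧
        ∀ j : ℕ, 1 ≤ j → j ≤ J → ∀ p : ℕ, p.Prime → (K : ℤ) < |(j : ℤ) * n - p|)
    (hpairs : ∀ δ : ℝ, 0 < δ → δ < 1 →
      ∃ κ : ℝ, 0 < κ ∧ ∃ X₀ : ℕ, ∀ X : ℕ, X₀ ≤ X → ∀ P : Finset ℕ, P ⊆ Ioc X (2 * X) →
        ∀ Y h : ℝ, 0 < Y → Y ≤ (X : ℝ) ^ (1 - δ) → (X : ℝ) ^ (-κ) ≤ h → h ≤ Y →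
        ∃ E : Set ℝ, MeasurableSet E ∧ volume E ≤ ENNReal.ofReal (Y * (X : ℝ) ^ (-κ)) ∧
        ∀ x : ℝ, Y ≤ x → x ≤ 2 * Y → x ∉ E →
          |({q : ℕ × ℕ | q.2 ∈ P ∧ (q.1 : ℝ) * x - h < q.2 ∧ (q.2 : ℝ) < q.1 * x}.ncard : ℝ) -
            (h / x) * P.card| ≤ (h / x) * (X : ℝ) ^ (1 - κ)) :
    ∀ δ ε : ℝ, 0 < ε → ε < δ → δ < 1 → ∃ c κ : ℝ, 0 < c ∧ 0 < κ ∧ ∃ Y₀ : ℝ, ∀ Y : ℝ, Y₀ ≤ Y →
      ∃ E : Set ℝ, MeasurableSet E ∧ volume E ≤ ENNReal.ofReal (Y ^ (1 - κ)) ∧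
      ∀ x : ℝ, Y ≤ x → x ≤ 2 * Y → x ∉ E → ∀ J K : ℕ, 1 ≤ J → 1 ≤ K → (J : ℝ) * K ≤ c * F Y →
        Y ^ (δ - ε) ≤ ({k : ℕ | (k : ℝ) ≤ Y ^ δ ∧ ∀ j : ℕ, 1 ≤ j → j ≤ J → ∀ p : ℕ, p.Prime →
          (K : ℝ) < |(j : ℝ) * k * x - p|}.ncard : ℝ) := by
  classical
  intro δ ε hε hεδ hδ1
  have hδ0 : 0 < δ := hε.trans hεδ
  obtain ⟨κ₁, hκ₁, X₀, hP⟩ := hpairs (δ / 4) (by linarith) (by linarith)
  obtain ⟨c₀, hc₀, Z₀, hS⟩ := hsim
  set κ₂ : ℝ := min κ₁ (min (ε / 8) (1 / 4)) with hκ₂d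
  have hκ₂ : 0 < κ₂ := by
    rw [hκ₂d]
    positivity
  have h21 : κ₂ ≤ κ₁ := min_le_left _ _
  have h2ε : κ₂ ≤ ε / 8 := (min_le_right _ _).trans (min_le_left _ _)
  have h2q : κ₂ ≤ 1 / 4 := (min_le_right _ _).trans (min_le_right _ _)
  have hev := facts F hF0 hFs hsc δ ε κ₁ κ₂ hδ1 hε hεδ hκ₂ h21 h2ε h2q X₀ Z₀
  obtain ⟨Y₀, hY₀⟩ := hev.exists_forall_of_atTop
  set c : ℝ := min (c₀ * (κ₂ / 2) / 32) 1 with hcd
  have hc0 : 0 < c := by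
    rw [hcd]
    positivity
  have hc1 : c ≤ 1 := min_le_right _ _
  have hc2 : c ≤ c₀ * (κ₂ / 2) / 32 := min_le_left _ _
  refine ⟨c, κ₁ / 2, hc0, by positivity, Y₀, fun Y hY => ?_⟩
  obtain ⟨g1, g2, g3, g4, g5, g6, g7, g8, g9, g10, g11, g12, g13, g14⟩ := hY₀ Y hY _ rfl _ rfl
  set X : ℕ := ⌊Y ^ (1 + δ) / 4⌋₊ with hXd
  set B : ℕ := ⌈Y ^ (κ₂ / 2)⌉₊ + 1 with hBd
  have hY0 : 0 < Y := by linarith
  have hX0 : (0 : ℝ) < X := by linarith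
  set h : ℝ := (X : ℝ) ^ (-κ₂) with hhd
  have hh0 : 0 < h := by positivity
  have hh1 : h ≤ 1 := Real.rpow_le_one_of_one_le_of_nonpos g3 (by linarith)
  -- the sets of integers
  set P : ℕ → ℕ → Finset ℕ := fun J K => (Ioc X (2 * X)).filter (fun n => ∀ j : ℕ, 1 ≤ j → j ≤ J →
    ∀ p : ℕ, p.Prime → ((K + 1 : ℕ) : ℤ) < |(j : ℤ) * n - p|) with hPd
  have hPsub : ∀ J K, P J K ⊆ Ioc X (2 * X) := fun J K => Finset.filter_subset _ _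
  have hE := fun J K => hP X g2 (P J K) (hPsub J K) Y h hY0 g4 g5 (hh1.trans g1)
  choose E hE1 hE2 hE3 using hE
  set M : ℕ := ⌊F Y⌋₊ with hMd
  have hMF : (M : ℝ) ≤ F Y := Nat.floor_le g10.le
  refine ⟨⋃ q ∈ (Finset.range (M + 1)) ×ˢ (Finset.range (M + 1)), E q.1 q.2, ?_, ?_, ?_⟩
  · exact Finset.measurableSet_biUnion _ fun q _ => hE1 q.1 q.2
  · refine (measure_biUnion_finset_le _ _).trans ?_
    refine (Finset.sum_le_sum fun q _ => hE2 q.1 q.2).trans ?_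
    rw [Finset.sum_const, Finset.card_product, Finset.card_range, nsmul_eq_mul]
    rw [← ENNReal.ofReal_natCast, ← ENNReal.ofReal_mul (by positivity)]
    apply ENNReal.ofReal_le_ofReal
    refine le_trans ?_ g12
    apply mul_le_mul_of_nonneg_right _ (by positivity)
    push_cast
    nlinarith
  · intro x hx1 hx2 hxE J K hJ hK hJK
    have hx0 : 0 < x := hY0.trans_le hx1
    have hJ1 : (1 : ℝ) ≤ J := by exact_mod_cast hJ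
    have hK1 : (1 : ℝ) ≤ K := by exact_mod_cast hK
    have hJKF : (J : ℝ) * K ≤ F Y := hJK.trans (by nlinarith)
    have hJF : (J : ℝ) ≤ F Y := by nlinarith
    have hKF : (K : ℝ) ≤ F Y := by nlinarith
    have hxE' : x ∉ E J K := by
      intro hcon
      apply hxE
      simp only [Set.mem_iUnion]
      refine ⟨(J, K), ?_, hcon⟩
      rw [Finset.mem_product, Finset.mem_range, Finset.mem_range]
      exact ⟨Nat.lt_succ_of_le (Nat.le_floor hJF), Nat.lt_succ_of_le (Nat.le_floor hKF)⟩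
    -- the size of `P J K`
    have hcard : X / B ≤ (P J K).card := by
      apply card_lower X B (by positivity)
      intro z
      have hJK2 : (J : ℝ) * ((K + 1 : ℕ) : ℝ) ≤ c₀ * F (Y ^ (κ₂ / 2)) := by
        push_cast
        have e1 : (J : ℝ) * (K + 1) ≤ 2 * (J * K) := by nlinarith
        have e2 : 2 * ((J : ℝ) * K) ≤ 2 * (c₀ * (κ₂ / 2) / 32 * F Y) := by
          have := mul_le_mul_of_nonneg_right hc2 g10.le
          linarith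
        have e3 : c₀ * (κ₂ / 2 / 16 * F Y) ≤ c₀ * F (Y ^ (κ₂ / 2)) :=
          mul_le_mul_of_nonneg_left g9 hc₀.le
        linarith
      obtain ⟨n, hn1, hn2, hn3⟩ := hS (Y ^ (κ₂ / 2)) g7 J (K + 1) hJ (by omega) hJK2 z
      refine ⟨n, ?_, ?_, hn3⟩
      · have e1 : 1 ≤ Real.sqrt (Y ^ (κ₂ / 2)) := by
          rw [Real.one_le_sqrt]
          exact g8
        have e2 : (z : ℝ) < n := by linarith
        exact_mod_cast e2
      · have e1 := Nat.le_ceil (Y ^ (κ₂ / 2))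
        have e2 : (n : ℝ) < ((z + B : ℕ) : ℝ) := by
          rw [hBd]
          push_cast
          linarith
        exact_mod_cast e2
    have hcardR : ((X / B : ℕ) : ℝ) ≤ (P J K).card := by exact_mod_cast hcard
    have h3 := hE3 J K x hx1 hx2 hxE'
    have h4 := (abs_le.1 h3).1
    have h5 := pairs_le (P J K) X J K x h (Y ^ δ) hx0 hh1
      ((mul_le_mul_of_nonneg_right hJF hh0.le).trans g11) (by
        refine g6.trans ?_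
        gcongr) (by
        intro n hn
        rw [hPd, Finset.mem_filter, Finset.mem_Ioc] at hn
        refine ⟨hn.1.2, fun j hj1 hj2 p hp => ?_⟩
        have := hn.2 j hj1 hj2 p hp
        push_cast at this
        exact this)
    have h5R : (({q : ℕ × ℕ | q.2 ∈ P J K ∧ (q.1 : ℝ) * x - h < q.2 ∧
        (q.2 : ℝ) < q.1 * x}.ncard : ℕ) : ℝ) ≤ (({k : ℕ | (k : ℝ) ≤ Y ^ δ ∧ ∀ j : ℕ, 1 ≤ j → j ≤ J →
          ∀ p : ℕ, p.Prime → (K : ℝ) < |(j : ℝ) * k * x - p|}.ncard : ℕ) : ℝ) := by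
      exact_mod_cast h5
    refine le_trans ?_ h5R
    have h6 : h / x * (((X / B : ℕ) : ℝ) - (X : ℝ) ^ (1 - κ₁)) ≤
        h / x * ((P J K).card : ℝ) - h / x * (X : ℝ) ^ (1 - κ₁) := by
      rw [← mul_sub]
      apply mul_le_mul_of_nonneg_left _ (by positivity)
      linarith
    have h7 : h / (2 * Y) * (((X / B : ℕ) : ℝ) - (X : ℝ) ^ (1 - κ₁)) ≤
        h / x * (((X / B : ℕ) : ℝ) - (X : ℝ) ^ (1 - κ₁)) := by
      apply mul_le_mul_of_nonneg_right _ (by linarith)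
      gcongr
    linarith

end Pool.Agent.H749R6.RM
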